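import Pool.Agent.Helper12.TS.St
import Pool.Agent.Helper36.NK.M_KCA
import Pool.Agent.Helper86.NK.M_PTR

/-!
# Module TS LNK (MP_d63854_co)
-/

set_option autoImplicit false

namespace Pool.Agent.Helper63.TS

open Pool.Agent.Helper12.TS
open Pool.Agent.Helper51.AJ (IsMinor Planar Apex ExMinor Con Tch)
open Pool.Agent.Helper12.NK (rst Kc add)

theorem cl_le_of {V : Type} (K : SimpleGraph V) (a b : V) (h : a = b ∨ K.Adj a b) : cl {a, b} ≤ K := by
  intro x y hxy
  obtain ⟨hne, hx, hy⟩ := hxy
  have hne' : x ≠ y := by simpa using hne
  rcases h with h | h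
  · subst h
    simp only [Set.mem_insert_iff, Set.mem_singleton_iff, or_self] at hx hy
    exact absurd (hx.trans hy.symm) hne'
  · rcases hx with hx | hx <;> rcases hy with hy | hy
    · exact absurd (hx.trans hy.symm) hne'
    · have hy' : y = b := hy
      subst hx; subst hy'
      exact h
    · have hx' : x = b := hx
      subst hy; subst hx'
      exact h.symm
    · have hx' : x = b := hx
      have hy' : y = b := hy
      exact absurd (hx'.trans hy'.symm) hne'

theorem hLNK : StLNK := by
  intro V _ G K X Q a b hGK hQ hL hK
  classical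
  by_cases hab : a = b ∨ K.Adj a b
  · obtain ⟨-, -, -, -, -, h6, -, -⟩ := Pool.Agent.Helper36.NK.hKCA Pool.Agent.Helper86.NK.hPTR V G Set.univ
    exact h6 _ K (sup_le hGK (cl_le_of K a b hab)) hK
  · push Not at hab
    obtain ⟨hne, hnadj⟩ := hab
    rcases hL with hL | ⟨P, hPQ, hPc, hPa, hPb⟩
    · exact absurd hL hnadj
    have hPU : ∀ x ∈ P, x ∉ X ∪ {a, b} := fun x hx hxU => Set.disjoint_left.1 hQ (hPQ hx) hxU
    have hmemU : ∀ x y, (rst G (X ∪ {a, b}) ⊔ cl {a, b}).Adj x y → x ∈ X ∪ {a, b} := by
      intro x y hxy
      rcases hxy with h | h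
      · exact h.2.1
      · exact Or.inr h.2.1
    have hfa : ∀ x y, (rst G (X ∪ {a, b}) ⊔ cl {a, b}).Adj x y → x ∈ X ∪ {a, b} ∧ y ∈ X ∪ {a, b} :=
      fun x y h => ⟨hmemU x y h, hmemU y x h.symm⟩
    have key := Pool.Agent.Helper86.NK.hPTR V V (rst G (X ∪ {a, b}) ⊔ cl {a, b}) K
      (fun x => if x = a then {a} ∪ P else {x})
    have hself : ∀ x, x ∈ (if x = a then {a} ∪ P else {x} : Set V) := by
      intro x
      by_cases h : x = a
      · rw [if_pos h]; exact Or.inl h
      · rw [if_neg h]; rfl
    refine key ?_ ?_ ?_ hK
    · intro x y _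
      by_cases h : x = a
      · simp only [if_pos h]
        exact Pool.Agent.Helper51.AJ.con_union (Pool.Agent.Helper51.AJ.con_singleton K a) hPc hPa
      · simp only [if_neg h]
        exact Pool.Agent.Helper51.AJ.con_singleton K x
    · intro x x' y y' hxy hx hy
      have hxU := hmemU _ _ hx
      have hyU := hmemU _ _ hy
      have aux : ∀ z, z ∈ X ∪ {a, b} → z ≠ a → Disjoint ({a} ∪ P : Set V) {z} := by
        intro z hz hza
        rw [Set.disjoint_singleton_right]
        rintro (h | h)
        · exact hza h
        · exact hPU z h hz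
      by_cases h : x = a
      · have h' : y ≠ a := fun hh => hxy (h.trans hh.symm)
        simp only [if_pos h, if_neg h']
        exact aux y hyU h'
      · by_cases h' : y = a
        · simp only [if_neg h, if_pos h']
          exact (aux x hxU h).symm
        · simp only [if_neg h, if_neg h']
          exact Set.disjoint_singleton.2 hxy
    · intro x y hxy
      rcases hxy with h | h
      · exact ⟨x, hself x, y, hself y, hGK h⟩
      · obtain ⟨hne1, hx, hy⟩ := h
        have hne' : x ≠ y := by simpa using hne1
        have hba : b ≠ a := fun hh => hne hh.symm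
        have hT : Tch K ({a} ∪ P) {b} :=
          Pool.Agent.Helper51.AJ.tch_mono (Pool.Agent.Helper51.AJ.tch_symm hPb) Set.subset_union_right
            (Set.Subset.refl _)
        rcases hx with hx | hx <;> rcases hy with hy | hy
        · exact absurd (hx.trans hy.symm) hne'
        · have hy' : y = b := hy
          subst hy'
          simp only [if_pos hx, if_neg hba]
          exact hT
        · have hx' : x = b := hx
          subst hx'
          simp only [if_pos hy, if_neg hba]
          exact Pool.Agent.Helper51.AJ.tch_symm hT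
        · have hx' : x = b := hx
          have hy' : y = b := hy
          exact absurd (hx'.trans hy'.symm) hne'

end Pool.Agent.Helper63.TS
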