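import Pool.Agent.Helper12.TS.StB
import Pool.Agent.Helper36.NK.M_KCA
import Pool.Agent.Helper86.NK.M_PTR

/-!
# Module TS BCH (MP_d63854_co): case beta, the quotient is not apex
-/

set_option autoImplicit false

namespace Pool.Agent.Helper63.TS

open Pool.Agent.Helper12.TS
open Pool.Agent.Helper51.AJ (IsMinor Planar Apex ExMinor Con Tch)
open Pool.Agent.Helper12.NK (rst Kc add)

private theorem con_rst {V : Type} [Finite V] {H : SimpleGraph V} {U P : Set V} (h : Con H P) (hP : P ⊆ U) :
    Con (rst H U) P := by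
  obtain ⟨-, -, -, h4, -, -, -, -⟩ := Pool.Agent.Helper36.NK.hKCA Pool.Agent.Helper86.NK.hPTR V H U
  exact (h4 P hP).1 h

private theorem tch_rst {V : Type} {H : SimpleGraph V} {U P Q : Set V} (h : Tch H P Q) (hP : P ⊆ U) (hQ : Q ⊆ U) :
    Tch (rst H U) P Q := by
  obtain ⟨x, hx, y, hy, h⟩ := h
  exact ⟨x, hx, y, hy, h, hP hx, hQ hy⟩

private theorem lk_rst {V : Type} [Finite V] {H : SimpleGraph V} {U Q : Set V} {a b : V} (h : Lk H Q a b) (hQ : Q ⊆ U)
    (ha : a ∈ U) (hb : b ∈ U) : Lk (rst H U) Q a b := by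
  rcases h with h | ⟨P, hPQ, hc, h1, h2⟩
  · exact Or.inl ⟨h, ha, hb⟩
  · refine Or.inr ⟨P, hPQ, con_rst hc (hPQ.trans hQ), tch_rst h1 ?_ (hPQ.trans hQ), tch_rst h2 ?_ (hPQ.trans hQ)⟩
    · exact Set.singleton_subset_iff.2 ha
    · exact Set.singleton_subset_iff.2 hb

theorem hBCH : StQUO → StCMP → StLNK → StBCH := by
  intro _hQUO hCMP hLNK V _ G D S A B y ρ _hKc hS hA hB hAB hStg hρ hy hnp hP hr hAvl v hpl
  classical
  obtain ⟨-, hdisj, -⟩ := hCMP V G S
  have hdAB : Disjoint A B := hdisj A B hA hB hAB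
  have hdAS : Disjoint A S := hA.1
  have hdBS : Disjoint B S := hB.1
  have hRr : Rr A ρ ⊆ A := fun x hx => hx.1
  have hnA : ∀ x ∈ B ∪ S, x ∉ A := by
    rintro x (hx | hx) hxA
    · exact Set.disjoint_left.1 hdAB hxA hx
    · exact Set.disjoint_left.1 hdAS hxA hx
  -- edges of the graph outside `A` are edges of the quotient
  have hquo : ∀ x ∈ B ∪ S, ∀ z ∈ B ∪ S, G.Adj x z → (quo G Set.univ ρ).Adj x z := by
    intro x hx z hz hxz
    exact ⟨G.ne_of_adj hxz, x, Set.mem_univ _, z, Set.mem_univ _, hρ.off x (hnA x hx), hρ.off z (hnA z hz), hxz⟩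
  -- the common step of the cases (1) and (2)
  have step : ∀ a ∈ S, ∀ b ∈ S, ∀ s ∈ S, S \ {s} = {a, b} → ∀ Q ⊆ Rr A ρ, v ∉ B → v ≠ a → v ≠ b → v ∉ Q →
      Lk (quo G Set.univ ρ) Q a b → False := by
    intro a ha b hb s hs hSs Q hQ hvB hva hvb hvQ hlk
    have hsub : B ∪ {a, b} ⊆ B ∪ S := by
      apply Set.union_subset_union_right
      rintro x (hx | hx)
      · rw [hx]; exact ha
      · rw [show x = b from hx]; exact hb
    have h1 : rst G (B ∪ {a, b}) ≤ rst (quo G Set.univ ρ) {v}ᶜ := by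
      intro x z hxz
      obtain ⟨hxz, hx, hz⟩ := hxz
      have hne : ∀ w ∈ B ∪ {a, b}, w ∈ ({v}ᶜ : Set V) := by
        rintro w hw (hwv : w = v)
        rw [hwv] at hw
        rcases hw with hw | hw | hw
        · exact hvB hw
        · exact hva hw
        · exact hvb hw
      exact ⟨hquo x (hsub hx) z (hsub hz) hxz, hne x hx, hne z hz⟩
    have h2 : Disjoint Q (B ∪ {a, b}) := by
      rw [Set.disjoint_left]
      intro x hx hx'
      exact hnA x (hsub hx') (hRr (hQ hx))
    have h3 : Lk (rst (quo G Set.univ ρ) {v}ᶜ) Q a b := by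
      refine lk_rst hlk ?_ ?_ ?_
      · rintro x hx (hxv : x = v)
        rw [hxv] at hx
        exact hvQ hx
      · exact fun h => hva (Eq.symm h)
      · exact fun h => hvb (Eq.symm h)
    have h4 := hLNK V G _ B Q a b h1 h2 h3 hpl
    have h5 := hStg s hs
    unfold Stg at h5
    rw [hSs] at h5
    exact h5 h4
  obtain ⟨P, hPR, hPc, hPt⟩ := hP
  have hPA : ∀ x ∈ P, x ∈ A := fun x hx => hRr (hPR hx)
  by_cases hvS : v ∈ S
  · -- case (1)
    have hc : (S \ {v}).ncard = 2 := by
      rw [Set.ncard_sdiff_singleton_of_mem hvS, hS]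
    obtain ⟨a, b, hab, hSv⟩ := Set.ncard_eq_two.1 hc
    have ha : a ∈ S \ {v} := by rw [hSv]; exact Or.inl rfl
    have hb : b ∈ S \ {v} := by rw [hSv]; exact Or.inr rfl
    refine step a ha.1 b hb.1 v hvS hSv P hPR ?_ (fun h => ha.2 h.symm) (fun h => hb.2 h.symm) ?_ ?_
    · exact fun h => Set.disjoint_left.1 hdBS h hvS
    · exact fun h => hnA v (Or.inr hvS) (hPA v h)
    · exact Or.inr ⟨P, Set.Subset.refl _, hPc, hPt a ha.1, hPt b hb.1⟩
  by_cases hvB : v ∈ B
  · -- case (3)
    have hPv : P ⊆ ({v}ᶜ : Set V) := by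
      rintro x hx (hxv : x = v)
      exact hnA v (Or.inl hvB) (by rw [← hxv]; exact hPA x hx)
    have hPlan : Planar (add (rst G ((B \ {v}) ∪ S)) y S) := by
      have key := Pool.Agent.Helper86.NK.hPTR V V (add (rst G ((B \ {v}) ∪ S)) y S)
        (rst (quo G Set.univ ρ) {v}ᶜ) (fun x => if x = y then P else {x})
      have hmem : ∀ x z, (add (rst G ((B \ {v}) ∪ S)) y S).Adj x z → x = y ∨ x ∈ (B \ {v}) ∪ S := by
        intro x z h
        rcases h with h | h | h
        · exact Or.inr h.2.1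
        · exact Or.inl h.1
        · exact Or.inr (Or.inr h.2.1)
      have hsub : ∀ x, x ∈ (B \ {v}) ∪ S → x ∈ B ∪ S ∧ x ≠ v ∧ x ≠ y := by
        intro x hx
        have h1 : x ∈ B ∪ S := by
          rcases hx with hx | hx
          · exact Or.inl hx.1
          · exact Or.inr hx
        refine ⟨h1, ?_, ?_⟩
        · rintro rfl
          rcases hx with hx | hx
          · exact hx.2 rfl
          · exact hvS hx
        · rintro rfl
          exact hnA x h1 hy
      have hyT : ∀ z ∈ S, Tch (rst (quo G Set.univ ρ) {v}ᶜ) P {z} := by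
        intro z hz
        apply Pool.Agent.Helper51.AJ.tch_symm
        refine tch_rst (hPt z hz) ?_ hPv
        rw [Set.singleton_subset_iff]
        rintro (h : z = v)
        exact hvS (h ▸ hz)
      refine key ?_ ?_ ?_ hpl
      · intro x z _
        by_cases h : x = y
        · simp only [if_pos h]
          exact con_rst hPc hPv
        · simp only [if_neg h]
          exact Pool.Agent.Helper51.AJ.con_singleton _ x
      · intro x x' z z' hxz hx hz
        have aux : ∀ w, w ∈ (B \ {v}) ∪ S → Disjoint P ({w} : Set V) := by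
          intro w hw
          rw [Set.disjoint_singleton_right]
          exact fun h => hnA w (hsub w hw).1 (hPA w h)
        by_cases h : x = y
        · have h' : z ≠ y := fun hh => hxz (h.trans hh.symm)
          simp only [if_pos h, if_neg h']
          exact aux z ((hmem _ _ hz).resolve_left h')
        · by_cases h' : z = y
          · simp only [if_neg h, if_pos h']
            exact (aux x ((hmem _ _ hx).resolve_left h)).symm
          · simp only [if_neg h, if_neg h']
            exact Set.disjoint_singleton.2 hxz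
      · intro x z hxz
        rcases hxz with h | ⟨hx, hz, hzy⟩ | ⟨hz, hx, hxy⟩
        · obtain ⟨h, hx, hz⟩ := h
          obtain ⟨hx1, hx2, hx3⟩ := hsub x hx
          obtain ⟨hz1, hz2, hz3⟩ := hsub z hz
          simp only [if_neg hx3, if_neg hz3]
          exact ⟨x, rfl, z, rfl, hquo x hx1 z hz1 h, hx2, hz2⟩
        · simp only [if_pos hx, if_neg hzy]
          exact hyT z hz
        · simp only [if_pos hz, if_neg hxy]
          exact Pool.Agent.Helper51.AJ.tch_symm (hyT x hx)
    have hA1 := hAvl v hvB hPlan (rst (quo G Set.univ ρ) {v}ᶜ) (Rr A ρ) ?_ ?_ hpl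
    · have heq : rst (rst (quo G Set.univ ρ) {v}ᶜ) (Rr A ρ ∪ S) = rst (quo G Set.univ ρ) (Rr A ρ ∪ S) := by
        have hne : ∀ w ∈ Rr A ρ ∪ S, w ∈ ({v}ᶜ : Set V) := by
          rintro w hw (hwv : w = v)
          rw [hwv] at hw
          rcases hw with hw | hw
          · exact hnA v (Or.inl hvB) (hRr hw)
          · exact hvS hw
        ext x z
        constructor
        · rintro ⟨⟨h, -, -⟩, hx, hz⟩
          exact ⟨h, hx, hz⟩
        · rintro ⟨h, hx, hz⟩
          exact ⟨⟨h, hne x hx, hne z hz⟩, hx, hz⟩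
      rw [heq] at hA1
      exact hnp hA1
    · rw [Set.disjoint_left]
      intro x hx hx'
      exact hnA x (Or.inl hx'.1) (hRr hx)
    · intro x z hxz
      obtain ⟨h, hx, hz⟩ := hxz
      have hsub : ∀ w, w ∈ (B \ {v}) ∪ S → w ∈ B ∪ S ∧ w ≠ v := by
        rintro w (hw | hw)
        · exact ⟨Or.inl hw.1, hw.2⟩
        · exact ⟨Or.inr hw, fun h => hvS (h ▸ hw)⟩
      exact ⟨hquo x (hsub x hx).1 z (hsub z hz).1 h, (hsub x hx).2, (hsub z hz).2⟩
  · -- case (2)
    obtain ⟨a, ha, b, hb, hab, hlk⟩ := hr v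
    have hex : ∃ s ∈ S, S \ {s} = {a, b} := by
      have h1 : ({a, b} : Set V).ncard = 2 := Set.ncard_pair hab
      have h2 : ({a, b} : Set V) ⊆ S := by
        rintro x (hx | hx)
        · rw [hx]; exact ha
        · rw [show x = b from hx]; exact hb
      have h3 : (S \ {a, b}).ncard = 1 := by
        rw [Set.ncard_sdiff h2, hS, h1]
      obtain ⟨s, hs⟩ := Set.ncard_eq_one.1 h3
      have hsS : s ∈ S \ {a, b} := by rw [hs]; rfl
      refine ⟨s, hsS.1, ?_⟩
      ext x
      constructor
      · rintro ⟨hx, hxs⟩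
        by_contra hcon
        have : x ∈ S \ {a, b} := ⟨hx, hcon⟩
        rw [hs] at this
        exact hxs this
      · intro hx
        refine ⟨h2 hx, ?_⟩
        rintro (hxs : x = s)
        rw [hxs] at hx
        exact hsS.2 hx
    obtain ⟨s, hs, hSs⟩ := hex
    refine step a ha b hb s hs hSs (Rr A ρ \ {v}) (fun x hx => hx.1) hvB ?_ ?_ (fun h => h.2 rfl) hlk
    · rintro rfl; exact hvS ha
    · rintro rfl; exact hvS hb

end Pool.Agent.Helper63.TS
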